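import Pool.Agent.Helper967.GG13

/-!
# Systems of equations over the Grigorchuk group: one fixed system and one more equation

The earlier result says that no algorithm decides whether a finite system of equations over the
first Grigorchuk group is solvable.  Here all but one of the equations are fixed, hence also the
number of variables and the number of equations, and the one equation which is given contains no
constants; and every recursively enumerable set is many-one reduced to the problem.

The system is the one of the earlier proof, for a universal machine: its fixed part describes the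
transitions of the machine, and the last equation describes the input.
-/

set_option autoImplicit false

namespace Pool.Agent.Results.MP_cfea17_lc.FixedSystem

open Pool.Agent.Helper967.GG
open Pool.Agent.Helper967.GG.Port Pool.Agent.Helper967.GrigEq
open Turing.PartrecToTM2 StateTransition
open Nat.Partrec (Code)

/-- All variables of the word `w` are among `x 0, ..., x (N - 1)`; constants are allowed. -/
def VarsBelow (N : ℕ) (w : List Letter) : Prop :=
  ∀ (i : ℕ) (e : Bool), Sum.inr (i, e) ∈ w → i < N

/-- The word `w` is a word in `x 0, ..., x (N - 1)` and their inverses, without constants. -/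
def InVars (N : ℕ) (w : List Letter) : Prop :=
  ∀ l ∈ w, ∃ (i : ℕ) (e : Bool), i < N ∧ l = Sum.inr (i, e)

theorem mem_dbl {l : List ℕ} {x : Letter} (h : x ∈ dbl l) :
    ∃ (i : ℕ) (e : Bool), (i = 0 ∨ i ∈ l) ∧ x = Sum.inr (i, e) := by
  induction l using List.reverseRecOn with
  | nil =>
    have : x = Sum.inr (0, true) := by simpa [dbl] using h
    exact ⟨0, true, Or.inl rfl, this⟩
  | append_singleton l m ih =>
    have e2 : dbl (l ++ [m]) = dbl l ++ (Sum.inr (m, true) :: dbl l) ++ [Sum.inr (m, false)] := by
      unfold dbl; rw [List.foldl_append]; rfl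
    rw [e2] at h
    have hl : x ∈ dbl l → ∃ (i : ℕ) (e : Bool), (i = 0 ∨ i ∈ l ++ [m]) ∧ x = Sum.inr (i, e) := by
      intro h
      obtain ⟨i, e, hi, rfl⟩ := ih h
      exact ⟨i, e, hi.imp id (fun h => List.mem_append_left _ h), rfl⟩
    rcases List.mem_append.1 h with h | h
    · rcases List.mem_append.1 h with h | h
      · exact hl h
      · rcases List.mem_cons.1 h with h | h
        · exact ⟨m, true, Or.inr (by simp), h⟩
        · exact hl h
    · exact ⟨m, false, Or.inr (by simp), List.mem_singleton.1 h⟩

theorem exists_bound (S : List (List Letter)) : ∃ M, ∀ w ∈ S, VarsBelow M w := by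
  have h1 : ∀ w : List Letter, ∃ M, VarsBelow M w := by
    intro w
    induction w with
    | nil => exact ⟨0, fun i e h => by simp at h⟩
    | cons l w ih =>
      obtain ⟨M, hM⟩ := ih
      rcases l with c | ⟨j, b⟩
      · refine ⟨M, fun i e h => hM i e ?_⟩
        rcases List.mem_cons.1 h with h | h
        · simp at h
        · exact h
      · refine ⟨max M (j + 1), fun i e h => ?_⟩
        rcases List.mem_cons.1 h with h | h
        · simp only [Sum.inr.injEq, Prod.mk.injEq] at h
          omega
        · have := hM i e h
          omega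
  induction S with
  | nil => exact ⟨0, by simp⟩
  | cons w S ih =>
    obtain ⟨M, hM⟩ := ih
    obtain ⟨M', hM'⟩ := h1 w
    refine ⟨max M M', fun w' hw' i e h => ?_⟩
    rcases List.mem_cons.1 hw' with rfl | hw'
    · have := hM' i e h
      omega
    · have := hM w' hw' i e h
      omega

/-- The reduction: one fixed system, and one equation without constants for the input. -/
theorem reduction : ∃ (N : ℕ) (S0 : List (List Letter)) (f : ℕ → List Letter),
    (∀ w ∈ S0, VarsBelow N w) ∧ (∀ n, InVars N (f n)) ∧ Computable f ∧
      ∀ n, Halt n ↔ Solvable (S0 ++ [f n]) := by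
  obtain ⟨Q, hQ, δ, q0, hbase⟩ := base
  haveI := hQ
  obtain ⟨code, hcode⟩ : ∃ code : Ltr Q K' Γ' → ℕ, Function.Injective code := by
    haveI : Countable (Ltr Q K' Γ') := Finite.to_countable
    exact exists_injective_nat _
  obtain ⟨S0, hS0⟩ := dfb_fix δ code
  let c0 : ℕ → Q × (K' → List Γ') := fun n => (q0, K'.elim (trList [n]) [] [] [])
  let cc : Γ' → ℕ := fun a => hc code (Ltr.sy K'.main (some a))
  let codes : ℕ → List ℕ := fun n => hc code (Ltr.st q0) ::
    (tn (cc Γ'.bit0) (cc Γ'.bit1) n ++ [cc Γ'.cons, hc code (Ltr.sy K'.main none),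
      hc code (Ltr.sy K'.rev none), hc code (Ltr.sy K'.aux none), hc code (Ltr.sy K'.stack none)])
  have hcodes : ∀ n, codes n = (cw ks (c0 n)).map (hc code) := by
    intro n
    change hc code (Ltr.st q0) :: _ = _
    rw [← trNat_map]
    simp [cw, ks, blk, c0, cc, Function.comp_def]
  have hcp : Primrec codes := by
    refine Primrec.list_cons.comp (Primrec.const _) ?_
    exact Primrec.list_append.comp (tn_primrec _ _) (Primrec.const _)
  let f : ℕ → List Letter := fun n => dbl (codes n) ++ [Sum.inr (9, false)]
  have hf : Computable f := by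
    have : Primrec f :=
      Primrec.list_append.comp (dbl_primrec.comp hcp) (Primrec.const _)
    exact this.to_comp
  obtain ⟨M1, hM1⟩ := exists_bound S0
  obtain ⟨M2, hM2⟩ : ∃ M2, ∀ l : Ltr Q K' Γ', hc code l < M2 := by
    obtain ⟨M, hM⟩ := (Set.finite_range (hc code)).bddAbove
    exact ⟨M + 1, fun l => Nat.lt_succ_of_le (hM ⟨l, rfl⟩)⟩
  refine ⟨max (max M1 M2) 10, S0, f, fun w hw i e h => ?_, fun n x hx => ?_, hf, fun n => ?_⟩
  · have := hM1 w hw i e h
    omega
  · rcases List.mem_append.1 hx with hx | hx
    · obtain ⟨i, e, hi, rfl⟩ := mem_dbl hx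
      refine ⟨i, e, ?_, rfl⟩
      rcases hi with rfl | hi
      · omega
      · rw [hcodes, List.mem_map] at hi
        obtain ⟨l, _, rfl⟩ := hi
        have := hM2 l
        omega
    · exact ⟨9, false, by omega, List.mem_singleton.1 hx⟩
  · rw [solvable_iff]
    have hdom : (eval (mstep δ) (c0 n)).Dom ↔ ∃ T cT, Nst δ T (c0 n) cT ∧ mstep δ cT = none := by
      have hreach : ∀ a b, Reaches (mstep δ) a b ↔ ∃ T, Nst δ T a b := by
        intro a b
        constructor
        · intro h
          induction h with
          | refl => exact ⟨0, rfl⟩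
          | tail _ h1 ih =>
            obtain ⟨T, hT⟩ := ih
            exact ⟨T + 1, nst_snoc δ hT h1⟩
        · rintro ⟨T, h⟩
          induction T generalizing a with
          | zero => rw [show a = b from h]; exact Relation.ReflTransGen.refl
          | succ T ih =>
            obtain ⟨c1, h1, h2⟩ := h
            exact Relation.ReflTransGen.head h1 (ih _ h2)
      constructor
      · intro h
        have hm := mem_eval.1 (Part.get_mem h)
        obtain ⟨T, hT⟩ := (hreach _ _).1 hm.1
        exact ⟨T, _, hT, hm.2⟩
      · rintro ⟨T, cT, h1, h2⟩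
        exact Part.dom_iff_mem.2 ⟨cT, mem_eval.2 ⟨(hreach _ _).2 ⟨T, h1⟩, h2⟩⟩
    rw [hbase n]
    refine Iff.trans hdom ?_
    have hlast : ∀ x : ℕ → Port, pw x (dbl (codes n) ++ [Sum.inr (9, false)]) = 1 ↔
        evw (x 0) (fun l => x (hc code l)) (cw ks (c0 n)) = x 9 := by
      intro x
      rw [pw_append, hcodes, dbl_val, pw_cons, pw_nil, mul_one]
      exact mul_inv_eq_one
    constructor
    · rintro ⟨T, cT, h1, h2⟩
      obtain ⟨x, hx1, hx2, hx3⟩ := complete δ code hcode h1 h2
      refine ⟨x, hx1, fun w hw => ?_⟩
      rw [List.mem_append, List.mem_singleton] at hw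
      rcases hw with hw | rfl
      · exact (hS0 x).1 hx2 w hw
      · exact (hlast x).2 hx3
    · rintro ⟨x, hx1, hx2⟩
      refine sound δ code hx1 ((hS0 x).2 fun w hw => hx2 w (List.mem_append_left _ hw)) ?_
      exact (hlast x).1 (hx2 _ (List.mem_append_right _ (List.mem_singleton.2 rfl)))

/-- Every recursively enumerable set is many-one reducible to the halting set. -/
theorem universal {S : ℕ → Prop} (hS : REPred S) : ∃ g : ℕ → ℕ, Computable g ∧
    ∀ n, S n ↔ Halt (g n) := by
  have hf : Partrec (fun m : ℕ => (Part.assert (S (Nat.unpair m).1) fun _ => Part.some ()).map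
      (fun _ => 0)) :=
    Partrec.map (Partrec.comp hS (Computable.fst.comp Computable.unpair)) (Computable.const 0).to₂
  obtain ⟨c, hc⟩ := Code.exists_code.1 (Partrec.nat_iff.1 hf)
  refine ⟨fun n => Encodable.encode (Code.curry c n),
    Computable.encode.comp (Code.primrec₂_curry.comp (Primrec.const c) Primrec.id).to_comp,
    fun n => ?_⟩
  unfold Halt
  rw [Denumerable.ofNat_encode, Code.eval_curry, hc]
  simp [Part.map, Part.assert]

theorem halt_re : REPred Halt := by
  have h1 : Partrec fun n : ℕ => Code.eval (Denumerable.ofNat Code n) 0 :=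
    Code.eval_part.comp (Computable.ofNat Code) (Computable.const 0)
  exact h1.dom_re

/-- **One fixed system and one more equation.** There are a number `N` and a fixed finite system
`S0` of equations over the first Grigorchuk group in the variables `x 0, ..., x (N - 1)` such that

* for every recursively enumerable set `W` there is a computable function `f` from the natural
  numbers to the words in `x 0, ..., x (N - 1)` without constants, such that `n` is in `W` if and
  only if the system `S0` together with the equation `f n = 1` is solvable;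
* no algorithm decides, given a word `w` in `x 0, ..., x (N - 1)` without constants, whether the
  system `S0` together with the equation `w = 1` is solvable, and the words of this kind for which
  it is not solvable are not recursively enumerable. -/
theorem result : ∃ (N : ℕ) (S0 : List (List Letter)), (∀ w ∈ S0, VarsBelow N w) ∧
    (∀ W : ℕ → Prop, REPred W → ∃ f : ℕ → List Letter, Computable f ∧ (∀ n, InVars N (f n)) ∧
      ∀ n, W n ↔ Solvable (S0 ++ [f n])) ∧
    (¬ ComputablePred fun w : List Letter => InVars N w ∧ Solvable (S0 ++ [w])) ∧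
    (¬ REPred fun w : List Letter => InVars N w ∧ ¬ Solvable (S0 ++ [w])) ∧
    (¬ ComputablePred fun w : List Letter => Solvable (S0 ++ [w])) ∧
    ¬ REPred fun w : List Letter => ¬ Solvable (S0 ++ [w]) := by
  obtain ⟨N, S0, f, h1, h2, h3, h4⟩ := reduction
  have hco : ¬ REPred fun n => ¬ Halt n := fun h =>
    halt_not_computable (ComputablePred.computable_iff_re_compl_re'.2 ⟨halt_re, h⟩)
  have hr : ∀ P : List Letter → Prop, (∀ n, P (f n) ↔ ¬ Halt n) → ¬ REPred P := by
    intro P hP h
    refine hco ?_
    have h5 : REPred fun n => P (f n) := Partrec.comp h h3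
    exact h5.of_eq hP
  refine ⟨N, S0, h1, ?_, ?_, ?_, ?_, ?_⟩
  · intro W hW
    obtain ⟨g, hg, hWg⟩ := universal hW
    exact ⟨fun n => f (g n), h3.comp hg, fun n => h2 _, fun n => (hWg n).trans (h4 (g n))⟩
  · intro h
    refine hr _ (fun n => ?_) h.not.to_re
    rw [← h4 n]
    exact not_congr ⟨fun h => h.2, fun h => ⟨h2 n, h⟩⟩
  · exact hr _ fun n => by
      rw [← h4 n]
      exact ⟨fun h => h.2, fun h => ⟨h2 n, h⟩⟩
  · intro h
    exact hr _ (fun n => by rw [← h4 n]) h.not.to_re
  · exact hr _ fun n => by rw [← h4 n]

end Pool.Agent.Results.MP_cfea17_lc.FixedSystem
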